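import Pool.Agent.Helper224.Bl4

/-!
# MP_9323ee_an, Q1

`ℓ_∞` is neither uniformly nor coarsely embeddable into `c₀(Γ)`, for any set `Γ` (in ZFC); in
particular it is not Lipschitz homeomorphic to a subset of `c₀(𝔠)`.
-/

set_option autoImplicit false
open scoped ENNReal

namespace Pool.Agent.Results.MP_9323ee_an.NoCoarseNoUniform

/-- bounded real sequences with the sup norm -/
abbrev LInf : Type := lp (fun _ : ℕ => ℝ) ∞

/-- bounded real functions on `Γ` with the sup norm -/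
abbrev Bd (Γ : Type) : Type := lp (fun _ : Γ => ℝ) ∞

/-- all values of `f` lie in `c₀(Γ)` -/
def IntoC0 {Γ : Type} (f : LInf → Bd Γ) : Prop :=
  ∀ x : LInf, ∀ ε : ℝ, 0 < ε → Set.Finite {γ : Γ | ε ≤ |(f x : Γ → ℝ) γ|}

/-- coarse embedding: bounded distances go to bounded distances, in both directions -/
def IsCoarse {Γ : Type} (f : LInf → Bd Γ) : Prop :=
  (∀ R : ℝ, ∃ S : ℝ, ∀ x y, ‖x - y‖ ≤ R → ‖f x - f y‖ ≤ S) ∧
  ∀ S : ℝ, ∃ R : ℝ, ∀ x y, ‖f x - f y‖ ≤ S → ‖x - y‖ ≤ R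

/-- Main result. -/
theorem result (Γ : Type) (f : LInf → Bd Γ) (hf : IntoC0 f) :
    (∀ s D ε K : ℝ, 0 < s → 0 < ε → (∀ x y, ‖x - y‖ ≤ s → ‖f x - f y‖ ≤ D) →
      ∃ x y, K ≤ ‖x - y‖ ∧ ‖f x - f y‖ ≤ 2 * D + ε) ∧
    ¬ IsUniformEmbedding f ∧ ¬ IsCoarse f := by
  have key : ∀ s D ε K : ℝ, 0 < s → 0 < ε → (∀ x y, ‖x - y‖ ≤ s → ‖f x - f y‖ ≤ D) →
      ∃ x y, K ≤ ‖x - y‖ ∧ ‖f x - f y‖ ≤ 2 * D + ε := by
    intro s D ε K hs hε hD
    obtain ⟨x, y, h1, h2⟩ := Helper224.Bl.coarse_scaled f hf s D (ε / 2) K hs (by positivity) hD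
    exact ⟨x, y, h1, by linarith⟩
  refine ⟨key, ?_, ?_⟩
  · intro h
    rw [Metric.isUniformEmbedding_iff] at h
    obtain ⟨-, huc, hinv⟩ := h
    obtain ⟨ε, hε, hinv⟩ := hinv 1 one_pos
    rw [Metric.uniformContinuous_iff] at huc
    obtain ⟨δ, hδ, huc⟩ := huc (ε / 4) (by positivity)
    obtain ⟨x, y, h1, h2⟩ := key (δ / 2) (ε / 4) (ε / 4) 1 (by positivity) (by positivity) (by
      intro x y hxy
      have h3 := huc (a := x) (b := y) (by rw [dist_eq_norm]; linarith)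
      rw [dist_eq_norm] at h3
      exact h3.le)
    have h3 := hinv (a := x) (b := y) (by rw [dist_eq_norm]; linarith)
    rw [dist_eq_norm] at h3
    linarith
  · rintro ⟨h1, h2⟩
    obtain ⟨S, hS⟩ := h1 1
    obtain ⟨R, hR⟩ := h2 (2 * S + 1)
    obtain ⟨x, y, h3, h4⟩ := key 1 S 1 (R + 1) one_pos one_pos hS
    have h5 := hR x y h4
    linarith

end Pool.Agent.Results.MP_9323ee_an.NoCoarseNoUniform
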